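import Pool.Agent.X43.HE.DecAsy

/-!
# MP_ef2672_gt: decomposable and tensor sublattices of lattices with `γ(L) ≥ c n`
-/

set_option autoImplicit false

namespace Pool.Agent.Results.MP_ef2672_gt.DecomposableSublattices

open Matrix Pool.Agent.H160R3.Herm Pool.Agent.TH220.HG Pool.Agent.X43.HE Filter
open scoped Kronecker

theorem result :
    -- (1) orthogonal sums, asymptotic inequality with the entropy of the dimensions
    (∀ c ε : ℝ, 0 < c → 0 < ε →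
      ∀ᶠ n : ℕ in atTop, ∀ A : Matrix (Fin n) (Fin n) ℝ, A.det ≠ 0 → c * n ≤ gam A →
      ∀ N : Matrix (Fin n) (Fin n) ℤ, N.det ≠ 0 →
      ∀ (t : ℕ) (d : Fin t → ℕ) (B : ∀ β, Matrix (Fin (d β)) (Fin (d β)) ℝ)
        (e : (Σ β, Fin (d β)) ≃ Fin n),
        (subGram A N).submatrix e e = Matrix.blockDiagonal' (fun β => (B β)ᵀ * B β) →
        (1 - ε) * ∑ β, (d β : ℝ) * Real.log (n / d β) -
          (Real.log (1 / (Real.pi ^ 2 * c)) + ε) * n ≤ 2 * Real.log |(N.det : ℝ)|) ∧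
    -- (2) pieces of dimension at most `θ n`, `θ < π/(2e)`: exponential index
    (∀ θ : ℝ, θ < Real.pi / (2 * Real.exp 1) →
      ∃ δ : ℝ, 0 < δ ∧ ∀ᶠ n : ℕ in atTop, ∀ A : Matrix (Fin n) (Fin n) ℝ, A.det ≠ 0 →
      n / (2 * Real.pi * Real.exp 1) ≤ gam A →
      ∀ N : Matrix (Fin n) (Fin n) ℤ, N.det ≠ 0 →
      ∀ (t : ℕ) (d : Fin t → ℕ) (B : ∀ β, Matrix (Fin (d β)) (Fin (d β)) ℝ)
        (e : (Σ β, Fin (d β)) ≃ Fin n), (∀ β, (d β : ℝ) ≤ θ * n) →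
        (subGram A N).submatrix e e = Matrix.blockDiagonal' (fun β => (B β)ᵀ * B β) →
        Real.exp (δ * n) ≤ |(N.det : ℝ)|) ∧
    -- (3) tensor products, asymptotic inequality
    (∀ c ε : ℝ, 0 < c → 0 < ε →
      ∀ᶠ n : ℕ in atTop, ∀ A : Matrix (Fin n) (Fin n) ℝ, A.det ≠ 0 → c * n ≤ gam A →
      ∀ N : Matrix (Fin n) (Fin n) ℤ, N.det ≠ 0 →
      ∀ m k : ℕ, 2 ≤ m → 2 ≤ k →
      ∀ (B : Matrix (Fin m) (Fin m) ℝ) (C : Matrix (Fin k) (Fin k) ℝ) (e : Fin m × Fin k ≃ Fin n),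
        (subGram A N).submatrix e e = (Bᵀ * B) ⊗ₖ (Cᵀ * C) →
        (Real.log (√3 * Real.pi ^ 2 * c) - ε) * n ≤ 2 * Real.log |(N.det : ℝ)|) ∧
    -- (4) tensor products at the Minkowski–Hlawka level: exponential index
    (∃ δ : ℝ, 0 < δ ∧ ∀ᶠ n : ℕ in atTop, ∀ A : Matrix (Fin n) (Fin n) ℝ, A.det ≠ 0 →
      n / (2 * Real.pi * Real.exp 1) ≤ gam A →
      ∀ N : Matrix (Fin n) (Fin n) ℤ, N.det ≠ 0 →
      ∀ m k : ℕ, 2 ≤ m → 2 ≤ k →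
      ∀ (B : Matrix (Fin m) (Fin m) ℝ) (C : Matrix (Fin k) (Fin k) ℝ) (e : Fin m × Fin k ≃ Fin n),
        (subGram A N).submatrix e e = (Bᵀ * B) ⊗ₖ (Cᵀ * C) →
        Real.exp (δ * n) ≤ |(N.det : ℝ)|) ∧
    -- (5) tensor products of two large lattices
    (∀ c ε : ℝ, 0 < c → 0 < ε →
      ∃ K : ℕ, ∀ n : ℕ, ∀ A : Matrix (Fin n) (Fin n) ℝ, A.det ≠ 0 → c * n ≤ gam A →
      ∀ N : Matrix (Fin n) (Fin n) ℤ, N.det ≠ 0 →
      ∀ m k : ℕ, K ≤ m → K ≤ k →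
      ∀ (B : Matrix (Fin m) (Fin m) ℝ) (C : Matrix (Fin k) (Fin k) ℝ) (e : Fin m × Fin k ≃ Fin n),
        (subGram A N).submatrix e e = (Bᵀ * B) ⊗ₖ (Cᵀ * C) →
        (Real.log (Real.pi ^ 4 * c) - ε) * n ≤ 2 * Real.log |(N.det : ℝ)|) :=
  ⟨orth_asym, orth_gap, tensor_asym, tensor_gap, tensor_asym'⟩

end Pool.Agent.Results.MP_ef2672_gt.DecomposableSublattices
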