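import Pool.Agent.X43.HE.FlagAsy

/-!
# MP_ef2672_gt: flags of sublattices of lattices with `γ(L) ≥ c n`
-/

set_option autoImplicit false

namespace Pool.Agent.Results.MP_ef2672_gt.FlagsOfSublattices

open Matrix Pool.Agent.H160R3.Herm Pool.Agent.TH220.HG Pool.Agent.X43.HE Filter

theorem result :
    -- (1) the inequality for flags, in every dimension
    (∀ n : ℕ, 0 < n → ∀ A : Matrix (Fin n) (Fin n) ℝ, A.det ≠ 0 →
      ∀ (t : ℕ) (G : ℕ → Submodule ℤ (Fin n → ℤ)), G 0 = ⊤ → G t = ⊥ → Antitone G →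
      ∀ δ : ℕ → ℝ, (∀ i, 0 < δ i) → (∀ i < t, FarFrom A (G i) (G (i + 1)) (δ i)) →
        gam A ^ n * ∏ j ∈ Finset.range t, δ j ^ (rk (G j) - rk (G (j + 1))) ≤
          ∏ j ∈ Finset.range t,
            hermite (rk (G j) - rk (G (j + 1))) ^ (rk (G j) - rk (G (j + 1)))) ∧
    -- (2) the asymptotic form, with the entropy of the ranks
    (∀ c ε : ℝ, 0 < c → 0 < ε →
      ∀ᶠ n : ℕ in atTop, ∀ A : Matrix (Fin n) (Fin n) ℝ, A.det ≠ 0 → c * n ≤ gam A →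
      ∀ (t : ℕ) (G : ℕ → Submodule ℤ (Fin n → ℤ)), G 0 = ⊤ → G t = ⊥ → Antitone G →
      ∀ δ : ℕ → ℝ, (∀ i, 0 < δ i) → (∀ i < t, FarFrom A (G i) (G (i + 1)) (δ i)) →
        (1 - ε) * ∑ j ∈ Finset.range t, ((rk (G j) - rk (G (j + 1)) : ℕ) : ℝ) *
            Real.log (n / (rk (G j) - rk (G (j + 1)) : ℕ)) -
          (Real.log (1 / (Real.pi ^ 2 * c)) + ε) * n ≤
        ∑ j ∈ Finset.range t, ((rk (G j) - rk (G (j + 1)) : ℕ) : ℝ) * Real.log (1 / δ j)) ∧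
    -- (3) vectors near the span of a given sublattice
    (∀ c ε : ℝ, 0 < c → 0 < ε →
      ∀ᶠ n : ℕ in atTop, ∀ A : Matrix (Fin n) (Fin n) ℝ, A.det ≠ 0 → c * n ≤ gam A →
      ∀ (M : Submodule ℤ (Fin n → ℤ)) (k : ℕ), rk M = k → 0 < k → k < n →
        ∃ x : Fin n → ℤ, x ∉ M ∧ ∃ y ∈ realSpan M,
          ∑ i, (A *ᵥ (toR x + y)) i ^ 2 <
            Real.exp (-((1 - ε) * (k * Real.log (n / k) +
              ((n : ℝ) - k) * Real.log (n / ((n : ℝ) - k))) -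
              (Real.log (1 / (Real.pi ^ 2 * c)) + ε) * n) / ((n : ℝ) - k)) * minSq A) ∧
    -- (4) flags with `t` steps of the same rank at the Minkowski–Hlawka level
    (∀ t : ℕ, 2 ≤ t → ∀ η : ℝ,
      (2 * Real.exp 1 / (Real.pi * t)) ^ ((t : ℝ) / (t - 1)) < η →
      ∀ᶠ k : ℕ in atTop, ∀ A : Matrix (Fin (t * k)) (Fin (t * k)) ℝ, A.det ≠ 0 →
      ((t * k : ℕ) : ℝ) / (2 * Real.pi * Real.exp 1) ≤ gam A →
      ∀ G : ℕ → Submodule ℤ (Fin (t * k) → ℤ), Antitone G → (∀ i ≤ t, rk (G i) = (t - i) * k) →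
        G 0 = ⊤ → ∃ i, i + 1 < t ∧ ∃ x ∈ G i, x ∉ G (i + 1) ∧ ∃ y ∈ realSpan (G (i + 1)),
          ∑ j, (A *ᵥ (toR x + y)) j ^ 2 < η * minSq A) :=
  ⟨fun _ hn _ hA t G h0 ht hG δ hδ h =>
      (flag_gam hn hA t G h0 ht (fun i => hG (Nat.le_succ i)) δ hδ h).2,
    flag_asym, near_one, near_flag⟩

end Pool.Agent.Results.MP_ef2672_gt.FlagsOfSublattices
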