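import Pool.Agent.X43.HE.Aut

/-!
# MP_ef2672_gt: lattices with `γ(L) ≥ c n` and their endomorphisms of small rank
-/

set_option autoImplicit false

namespace Pool.Agent.Results.MP_ef2672_gt.SmallRankEndomorphisms

open Matrix Pool.Agent.H160R3.Herm Pool.Agent.TH220.HG Pool.Agent.X43.HE Filter

theorem result :
    -- (1) the inequality, in every dimension
    (∀ n : ℕ, 0 < n → ∀ A : Matrix (Fin n) (Fin n) ℝ, A.det ≠ 0 →
      ∀ D Γ : ℝ, 0 < D → 0 ≤ Γ → ∀ s : ℕ, (∀ u, 1 ≤ u → u ≤ s → hermite u ≤ Γ) →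
      ∀ S : Set (Matrix (Fin n) (Fin n) ℤ), (∀ T ∈ S, T.rank ≤ s ∧ NormLe A D T) →
        kerRank S ≤ n ∧
        gam A ^ n ≤ hermite (kerRank S) ^ kerRank S * (D ^ 2 * Γ) ^ (n - kerRank S)) ∧
    -- (2) ranks at most `σ n`
    (∀ c σ D ε : ℝ, 0 < c → 0 < σ → 0 < D → 0 < ε →
      ∀ᶠ n : ℕ in atTop, ∀ A : Matrix (Fin n) (Fin n) ℝ, A.det ≠ 0 → c * n ≤ gam A →
      ∀ S : Set (Matrix (Fin n) (Fin n) ℤ), (∀ T ∈ S, (T.rank : ℝ) ≤ σ * n ∧ NormLe A D T) →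
        ((n : ℝ) - kerRank S) * Real.log (1 / (D ^ 2 * σ)) ≤
          (Real.log (1 / (Real.pi ^ 2 * c)) + ε) * n) ∧
    -- (3) small proportional rank
    (∀ c D ε : ℝ, 0 < c → 0 < D → 0 < ε → ∃ σ : ℝ, 0 < σ ∧
      ∀ᶠ n : ℕ in atTop, ∀ A : Matrix (Fin n) (Fin n) ℝ, A.det ≠ 0 → c * n ≤ gam A →
      ∀ S : Set (Matrix (Fin n) (Fin n) ℤ), (∀ T ∈ S, (T.rank : ℝ) ≤ σ * n ∧ NormLe A D T) →
        (1 - ε) * n ≤ kerRank S) ∧
    -- (4) isometries at the Minkowski–Hlawka level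
    (∀ σ : ℝ, σ < Real.pi / (8 * Real.exp 1) →
      ∀ᶠ n : ℕ in atTop, ∀ A : Matrix (Fin n) (Fin n) ℝ, A.det ≠ 0 →
      n / (2 * Real.pi * Real.exp 1) ≤ gam A →
      ∀ G : Set (Matrix (Fin n) (Fin n) ℤ), (∀ g ∈ G, Isom A g ∧ ((g - 1).rank : ℝ) ≤ σ * n) →
        ∃ v : Fin n → ℤ, v ≠ 0 ∧ ∀ g ∈ G, g *ᵥ v = v) := by
  refine ⟨?_, ?_, ?_, ?_⟩
  · intro n hn A hA D Γ hD hΓ s hs S hS
    exact master_gam hn hA hD hΓ s hs S (fun T hT => (hS T hT).1) (fun T hT => (hS T hT).2)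
  · intro c σ D ε hc hσ hD hε
    filter_upwards [asym c σ D ε hc hσ hD hε] with n h A hA hcA S hS
    exact h A hA hcA S (fun T hT => (hS T hT).1) (fun T hT => (hS T hT).2)
  · intro c D ε hc hD hε
    obtain ⟨σ, hσ, h⟩ := qual c D ε hc hD hε
    refine ⟨σ, hσ, ?_⟩
    filter_upwards [h] with n h A hA hcA S hS
    exact h A hA hcA S (fun T hT => (hS T hT).1) (fun T hT => (hS T hT).2)
  · exact mh_level

end Pool.Agent.Results.MP_ef2672_gt.SmallRankEndomorphisms
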